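import Pool.Agent.Q215.FG.Main

/-!
# MP_917879_lc: determinacy of the sets invariant under a countable group

Turing determinacy is the determinacy of the sets which are invariant under Turing equivalence. By
the starting file `ThompsonCircle` it is equivalent to the determinacy of the sets invariant under
Thompson's circle group, acting on the positions of the moves. We replace this group by arbitrary
countable groups `Γ`.

* If `Γ` has no free subsemigroup of rank two (for instance, if `Γ` is a torsion group, amenable or
  not), then, for every action of `Γ` by permutations of the positions and bit flips, determinacy
  of the invariant sets implies the axiom of determinacy.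
* If `Γ` contains a free group of rank two, then `Γ` has a free action on the positions for which
  determinacy of the invariant sets is equivalent to Turing determinacy.
* Every `Γ` has a free action on the positions for which determinacy of the invariant sets implies
  the axiom of determinacy.

Lean has the axiom of choice, so the implications are stated game by game, with Borel maps which
turn one kind of games into the other kind.
-/

set_option autoImplicit false

namespace Pool.Agent.Results.MP_917879_lc.FreeGroups

open Pool.Agent.Q215.FG

/-- **Determinacy of the sets invariant under a countable group `Γ`.** (1) `Γ` without free
subsemigroup of rank two, all actions: at least as strong as the axiom of determinacy. (2) `Γ` which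
contains a free group of rank two, some free action on the positions: equivalent to Turing
determinacy. (3) Any `Γ`, some free action on the positions: at least as strong as the axiom of
determinacy. (4) Torsion groups and commutative groups satisfy the hypothesis of (1). -/
theorem result (Γ : Type) [Group Γ] [Countable Γ] :
    (NoFreeSemigroup Γ →
      ∀ σ : Γ →* Equiv.Perm (ℕ → Bool), CoordinateAction σ → GivesAD σ) ∧
    (ContainsFreeGroup Γ →
      ∃ ρ : Γ →* Equiv.Perm ℕ, Free ρ ∧ EquivalentToTD (rearrange ρ)) ∧
    (∃ ρ : Γ →* Equiv.Perm ℕ, Free ρ ∧ GivesAD (rearrange ρ)) ∧
    ((∀ g : Γ, IsOfFinOrder g) ∨ (∀ a b : Γ, a * b = b * a) → NoFreeSemigroup Γ) :=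
  ⟨fun h _ hσ => part_one h hσ, part_two, part_three, fun h =>
    h.elim noFreeSemigroup_of_torsion noFreeSemigroup_of_comm⟩

end Pool.Agent.Results.MP_917879_lc.FreeGroups
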