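import Pool.Agent.Q24.BD.Star
import Pool.Agent.Q24.BD.Inv
import Pool.Agent.Q24.BD.Borel
import Pool.Agent.Q24.BD.Named

/-!
# Turing determinacy and infinitely many boards

* `BoardsI A`, `BoardsII A`: the player can win at least one of infinitely many boards, on each of
  which the game with payoff set `A` is played; he names the board on which the next moves are made.
* `FewI n A`, `FewII n A`: the same with `n` boards.
* `LimitI A`, `LimitII A`: the same, and the player can name the won board in the limit.
* `NamedI D A`, `NamedII D A`: the same, and the number of the won board is a function of the play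
  whose fibres are in the class `D`.
* `star A`: the Turing invariant set attached to `A`.

Turing determinacy holds if and only if in every game one of the players can win at least one of
infinitely many boards; the axiom of determinacy holds if and only if moreover he can name the won
board in the limit. In particular, if in every game one of the players can win one of two boards,
then Turing determinacy holds.
-/

set_option autoImplicit false

namespace Pool.Agent.Results.MP_917879_lc.InfinitelyManyBoards

open Pool.Agent.H685R3 Pool.Agent.Q24.BD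

/-- A class of sets which contains the Borel sets and is closed under countable unions, countable
intersections and Borel preimages. -/
def BorelClosed (K : Set (Set (ℕ → Bool))) : Prop :=
  (∀ B, MeasurableSet B → B ∈ K) ∧
    (∀ B : ℕ → Set (ℕ → Bool), (∀ n, B n ∈ K) → (⋃ n, B n) ∈ K) ∧
    (∀ B : ℕ → Set (ℕ → Bool), (∀ n, B n ∈ K) → (⋂ n, B n) ∈ K) ∧
    ∀ B ∈ K, ∀ f : (ℕ → Bool) → ℕ → Bool, Measurable f → f ⁻¹' B ∈ K

theorem star_mem {K : Set (Set (ℕ → Bool))} (hK : BorelClosed K) {A : Set (ℕ → Bool)}
    (hA : A ∈ K) : star A ∈ K := by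
  obtain ⟨h1, h2, h3, h4⟩ := hK
  obtain ⟨C, D, F, hm, hs⟩ := star_form
  rw [hs A]
  refine h2 _ fun a => h3 _ fun b => ?_
  obtain ⟨hC, hD, hF⟩ := hm a b
  have e1 : D a b ∩ F a b ⁻¹' A = ⋂ n : ℕ, if n = 0 then D a b else F a b ⁻¹' A := by
    ext x
    simp only [Set.mem_inter_iff, Set.mem_iInter]
    constructor
    · intro h n
      split_ifs
      · exact h.1
      · exact h.2
    · intro h
      exact ⟨by simpa using h 0, by simpa using h 1⟩
  have e2 : C a b ∪ (D a b ∩ F a b ⁻¹' A) =
      ⋃ n : ℕ, if n = 0 then C a b else D a b ∩ F a b ⁻¹' A := by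
    ext x
    simp only [Set.mem_union, Set.mem_iUnion]
    constructor
    · rintro (h | h)
      · exact ⟨0, by simpa using h⟩
      · exact ⟨1, by simpa using h⟩
    · rintro ⟨n, h⟩
      split_ifs at h
      · exact Or.inl h
      · exact Or.inr h
  rw [e2]
  refine h2 _ fun n => ?_
  split_ifs
  · exact h1 _ hC
  · rw [e1]
    refine h3 _ fun n => ?_
    split_ifs
    · exact h1 _ hD
    · exact h4 A hA _ hF

/-- **Turing determinacy and infinitely many boards.** -/
theorem result :
    -- (1) the game on infinitely many boards is governed by a Turing invariant set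
    (∀ A, TuringInvariant (star A) ∧ (WinsI (star A) → BoardsI A) ∧
      (WinsII (star A) → BoardsII A)) ∧
    (∃ (C D : ℕ → ℕ → Set (ℕ → Bool)) (F : ℕ → ℕ → (ℕ → Bool) → ℕ → Bool),
      (∀ a b, MeasurableSet (C a b) ∧ MeasurableSet (D a b) ∧ Measurable (F a b)) ∧
      ∀ A, star A = ⋃ a, ⋂ b, (C a b ∪ (D a b ∩ F a b ⁻¹' A))) ∧
    -- (2) for Turing invariant sets one board is enough
    (∀ A, TuringInvariant A → (BoardsI A ↔ WinsI A) ∧ (BoardsII A ↔ WinsII A)) ∧
    -- (3) Turing determinacy for a class of sets
    (∀ K : Set (Set (ℕ → Bool)), (BorelClosed K ∨ ∀ A ∈ K, star A ∈ K) →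
      ((∀ A ∈ K, TuringInvariant A → WinsI A ∨ WinsII A) ↔
        ∀ A ∈ K, BoardsI A ∨ BoardsII A)) ∧
    -- (4) naming the won board
    (∀ A, (LimitI A ↔ WinsI A) ∧ (LimitII A ↔ WinsII A)) ∧
    (∀ D, Good D → ∀ A, (NamedI D A ↔ WinsI A) ∧ (NamedII D A ↔ WinsII A)) ∧
    -- (5) a player who has no chance on one board; finitely many boards
    (∀ A, (WinsII A → ¬ BoardsI A) ∧ (WinsI A → ¬ BoardsII A)) ∧
    (∀ A, (FewI 1 A ↔ WinsI A) ∧ (FewII 1 A ↔ WinsII A) ∧
      ∀ n, (FewI n A → BoardsI A) ∧ (FewII n A → BoardsII A)) ∧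
    -- (6) with the axiom of choice
    (∃ A, ¬ BoardsI A ∧ ¬ BoardsII A) ∧ ∃ A, FewI 2 A ∧ ¬ WinsI A ∧ ¬ WinsII A := by
  refine ⟨fun A => ⟨star_invariant A, boardsI_of_star, boardsII_of_star⟩, star_form,
    fun A hA => ⟨boardsI_iff hA, boardsII_iff hA⟩, fun K hK => ?_,
    fun A => ⟨limitI_iff, limitII_iff⟩, fun D hD A => ⟨namedI_iff hD, namedII_iff hD⟩,
    fun A => ⟨not_boardsI, not_boardsII⟩,
    fun A => ⟨fewI_one, fewII_one, fun n => ⟨boardsI_of_fewI, boardsII_of_fewII⟩⟩,
    exists_no_boards, exists_few_not_wins⟩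
  rcases hK with hK | hK
  · exact class_iff K fun A hA => star_mem hK hA
  · exact class_iff K hK

end Pool.Agent.Results.MP_917879_lc.InfinitelyManyBoards
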