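import Pool.Agent.Q202.IDet.Circle

/-!
# MP_917879_lc: the determinacy of sets invariant under a non-paradoxical group implies AD

Turing determinacy is the determinacy of the sets of reals which are invariant under the Turing
equivalence relation. By the starting files `PermInvariantHyp` and `ThompsonCircle` it is
equivalent to the determinacy of the sets invariant under all primitive recursive permutations of
the positions `0, 1, 2, …` of the moves, and also to the determinacy of the sets invariant under
two such permutations, which generate Thompson's circle group `T`.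

We consider an arbitrary countable group `Γ` of transformations of the Cantor space which permute
the positions and flip some bits. It is called paradoxical if the set of the positions of one of
the two players (the even or the odd numbers) almost contains two almost disjoint images of itself
under the group. If `Γ` is not paradoxical, then there are `Γ`-invariant Borel sets `W`, `D` and a
`Γ`-invariant Borel map `F` such that for EVERY payoff set `A` the game with the `Γ`-invariant
payoff set `W ∪ (D ∩ F⁻¹ A)` is equivalent to the game with the payoff set `A`. So the determinacy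
of the `Γ`-invariant sets implies the axiom of determinacy.

Groups are not paradoxical if they preserve a finitely additive measure for which both players
have positions of positive measure, if their elements move only a small proportion of the
positions below `N` to positions above `N` (for instance, if they lie in the Lévy group), or if
they preserve a linear order of the positions in which the even numbers form an initial segment.
The last condition holds for the copy of Thompson's group `F` in the group `T` of the starting
file. So the determinacy of the sets which are invariant under `F` (and under all changes of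
finitely many bits) is equivalent to the axiom of determinacy, while for `T`, which is
paradoxical, it is equivalent to Turing determinacy.
-/

set_option autoImplicit false

namespace Pool.Agent.Results.MP_917879_lc.NonParadoxicalGroups

open Pool.Agent.H685R3 Pool.Agent.Q202.IDet

/-- Every game is equivalent to a game with a payoff set invariant under `Γ`, uniformly by Borel
sets `W`, `D` and a Borel map `F` which are invariant under `Γ`. -/
def Reduces (Γ : Subgroup (Equiv.Perm (ℕ → Bool))) : Prop :=
  ∃ (W D : Set (ℕ → Bool)) (F : (ℕ → Bool) → ℕ → Bool),
    MeasurableSet W ∧ MeasurableSet D ∧ Measurable F ∧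
    (∀ γ ∈ Γ, ∀ x, (γ x ∈ W ↔ x ∈ W) ∧ (γ x ∈ D ↔ x ∈ D) ∧ F (γ x) = F x) ∧
    ∀ A : Set (ℕ → Bool), (WinsI (W ∪ {x | x ∈ D ∧ F x ∈ A}) ↔ WinsI A) ∧
      (WinsII (W ∪ {x | x ∈ D ∧ F x ∈ A}) ↔ WinsII A)

/-- `Γ` preserves a finitely additive measure on the positions which vanishes on finite sets and
for which the positions of each player have positive measure. -/
def PreservesMeasure (Γ : Subgroup (Equiv.Perm (ℕ → Bool))) : Prop :=
  ∃ μ : Set ℕ → ℝ, (∀ S, 0 ≤ μ S) ∧ (∀ S T, Disjoint S T → μ (S ∪ T) = μ S + μ T) ∧
    (∀ S : Set ℕ, S.Finite → μ S = 0) ∧
    (∀ γ ∈ Γ, ∀ h r, IsCoord γ h r → ∀ S : Set ℕ, μ (h '' S) = μ S) ∧ ∀ b < 2, 0 < μ (side b)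

/-- `Γ` preserves a linear order of the positions, given by an injection `φ` into a linearly
ordered set, in which the positions of the first player form an initial segment. -/
def PreservesOrder (Γ : Subgroup (Equiv.Perm (ℕ → Bool))) : Prop :=
  ∃ φ : ℕ → ℚ, Function.Injective φ ∧
    (∀ γ ∈ Γ, ∀ h r, IsCoord γ h r → ∀ p q, φ p < φ q → φ (h p) < φ (h q)) ∧
    ∀ p q, p % 2 = 0 → q % 2 = 1 → φ p < φ q

/-- **Determinacy of the sets invariant under a non-paradoxical group.** (1) If `Γ` is a countable
group of transformations of the Cantor space which permute the positions and flip some bits, and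
`Γ` is not paradoxical, then every game is equivalent to one with a `Γ`-invariant payoff set, in a
uniform Borel way. (2) Examples of groups which are not paradoxical. (3) For the permutations
`left` and `right`, which generate a copy of Thompson's group `F`: every game is equivalent to one
whose payoff set is closed under rearranging the positions by `left` and `right` and under
changing finitely many bits. (4) Sets invariant under Thompson's circle group `T`, for which
determinacy of the invariant sets is equivalent to Turing determinacy by the starting file
`ThompsonCircle`, are closed under `left` and `right`; and `T` is paradoxical. -/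
theorem result :
    (∀ Γ : Subgroup (Equiv.Perm (ℕ → Bool)), Countable Γ → (∀ γ ∈ Γ, ∃ h r, IsCoord γ h r) →
      NonParadoxical Γ → Reduces Γ) ∧
    (∀ Γ : Subgroup (Equiv.Perm (ℕ → Bool)),
      (∀ γ ∈ Γ, ∀ h r, IsCoord γ h r → SmallFlow h) ∨ PreservesMeasure Γ ∨ PreservesOrder Γ →
        NonParadoxical Γ) ∧
    (∃ (W D : Set (ℕ → Bool)) (F : (ℕ → Bool) → ℕ → Bool),
      MeasurableSet W ∧ MeasurableSet D ∧ Measurable F ∧
      ∀ A : Set (ℕ → Bool), FInvariant (W ∪ {x | x ∈ D ∧ F x ∈ A}) ∧
        (WinsI (W ∪ {x | x ∈ D ∧ F x ∈ A}) ↔ WinsI A) ∧
        (WinsII (W ∪ {x | x ∈ D ∧ F x ∈ A}) ↔ WinsII A)) ∧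
    (∀ A : Set (ℕ → Bool), Pool.Agent.Y588.TC.CircleInvariant A →
      ∀ x, (x ∘ left ∈ A ↔ x ∈ A) ∧ (x ∘ right ∈ A ↔ x ∈ A)) ∧
    (∀ Γ : Subgroup (Equiv.Perm (ℕ → Bool)), pull quarterE ∈ Γ → pull thirdE ∈ Γ →
      ¬ NonParadoxical Γ) := by
  refine ⟨fun Γ hc hΓ hN => ?_, fun Γ h => ?_, thompson, fun A hA x => circle_left_right hA x,
    fun Γ => circle_paradoxical⟩
  · have := hc
    exact main Γ hΓ hN
  · rcases h with h | ⟨μ, h0, h1, h2, h3, h4⟩ | ⟨φ, h0, h1, h2⟩
    · exact nonParadoxical_of_smallFlow h
    · exact nonParadoxical_of_measure μ h0 h1 h2 h3 h4
    · exact nonParadoxical_of_order φ h0 h1 h2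

end Pool.Agent.Results.MP_917879_lc.NonParadoxicalGroups
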