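import Pool.Agent.Q206.UD.Comp

/-!
# MP_917879_lc: a dichotomy for Turing equivalence with bounded use

For functions `g`, `g'` from the natural numbers to the natural numbers and infinity we consider
payoff sets closed under the pairs of sequences `x`, `y` such that `x` is computed from `y` with use
at most `n + g n` (the first `n` bits of `x` from the first `n + g n` bits of `y`) and `y` is
computed from `x` with use at most `n + g' n`.

* If the lower limit of `max (g n) (g' n) / n` is zero, then the games with such payoff sets code
  all games, by Borel sets and a Borel map invariant under these pairs. So the determinacy of the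
  invariant sets is the axiom of determinacy.
* If the lower limit of `g n / n` or of `g' n / n` is positive, then every game with such a payoff
  set is equivalent to a game with a Turing invariant payoff set, and even to one with a payoff set
  closed under hyperarithmetical equivalence. So the determinacy of the invariant sets is
  equivalent to Turing determinacy.

For `g = g'` one of the two cases holds. For instance, with an arbitrarily small `ε > 0`, closure
under Turing equivalence with use at most `(1 + ε) n` is as good as Turing invariance, and this
remains true if `x` has to be computed from `y` with use exactly `n` (and `y` from `x` with use at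
most `(1 + ε) n`), while the closure under Turing equivalence with use `n + o(n)` gives the full
axiom of determinacy. Moreover all bounds in the second case which are `O(n)` give the same class
of sets: the sets closed under Turing equivalence with linear use.

In the second case only very simple reductions are needed: delays by a factor at most `1 + 1 / k`,
which are primitive recursive maps of the positions, or permutations of the positions which move
every position `n` by at most `n / k + C`.

The first case holds in a much stronger form. We write `InfoLE S x y` if the conditional Kolmogorov
complexity of the first `n` bits of `x`, given the first `n` bits of `y`, is `o(n)` for `n` in `S`;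
this holds (`SubUse S x y`) if one program computes the first `n` bits of `x` from `n` and from the
first `n + o(n)` bits of `y`, for `n` in `S`. For every infinite set `S` there are Borel sets `W`,
`D` and a Borel map `F` such that all games are coded as above and such that `W`, `D`, `F` are
invariant under the equivalence relation `InfoLE S x y ∧ InfoLE S y x`, under changes of the
sequence on sets of positions of density zero along `S`, and under mutual decoding with advice of
rate zero along `S` by a given countable family of decoders, computable or not.
-/

set_option autoImplicit false

namespace Pool.Agent.Results.MP_917879_lc.UseDichotomy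

open Pool.Agent.Helper227 Pool.Agent.H685R3 Pool.Agent.Y588.TC Pool.Agent.Q202.IDet2
  Pool.Agent.Q206.UD

/-- The game with the payoff set `A` is equivalent to a game with a Turing invariant payoff set and
to a game with a payoff set closed under hyperarithmetical equivalence. -/
def TuringGame (A : Set (ℕ → Bool)) : Prop :=
  (TuringInvariant {u | adaptiveJump u ∈ A} ∧
    (WinsI {u | adaptiveJump u ∈ A} ↔ WinsI A) ∧
    (WinsII {u | adaptiveJump u ∈ A} ↔ WinsII A)) ∧
  HypInvariant {u | adaptiveJump (hyperJump u) ∈ A} ∧
    (WinsI {u | adaptiveJump (hyperJump u) ∈ A} ↔ WinsI A) ∧
    (WinsII {u | adaptiveJump (hyperJump u) ∈ A} ↔ WinsII A)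

/-- **Turing equivalence with bounded use.** Let `g`, `g'` be functions with values natural numbers
or infinity. (1) If the lower limit of `max (g n) (g' n) / n` is zero, then there are Borel sets
`W`, `D` and a Borel map `F` such that for every payoff set `A` the game with the payoff set
`W ∪ (D ∩ F⁻¹ A)` is won by the same player as the game with the payoff set `A`, and such that
`W`, `D` and `F` do not distinguish `x` and `y` if `x` is computed from `y` with use at most
`n + g n` and `y` from `x` with use at most `n + g' n`. (2) If the lower limit of `g n / n` or of
`g' n / n` is positive and `A` is closed under these pairs `x`, `y`, then `A` is closed under Turing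
equivalence with linear use, the game of `A` is equivalent to the game of the Turing invariant set
of all `u` with `adaptiveJump u` in `A`, and to the game of the set of all `u` with
`adaptiveJump (hyperJump u)` in `A`, which is closed under hyperarithmetical equivalence.
(3) Conversely, sets closed under Turing equivalence with linear use are closed under the pairs, if
`g n` and `g' n` are at most `C * n`. (4) The conclusion of (2) on the games is also true for sets
closed under delays with slack `n / k + C`; they are closed under all primitive recursive linear
maps of the positions with a primitive recursive linear section. (5) It is also true for sets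
closed under the primitive recursive permutations which move each position `n` by at most
`n / k + C` and have a primitive recursive inverse. (6) Turing invariant sets are closed under the
pairs, for all `g`, `g'`. (7) If `g` and `g'` are infinite everywhere then the sets closed under the
pairs are exactly the Turing invariant sets. (8) For every infinite set `S` of lengths and every
countable family of decoders there are Borel sets `W`, `D` and a Borel map `F` such that for every
payoff set `A` the game with the payoff set `W ∪ (D ∩ F⁻¹ A)` is won by the same player as the game
with the payoff set `A`, and such that `W`, `D` and `F` do not distinguish `x` and `y` if, for `n`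
in `S`, their initial segments of length `n` have mutual conditional Kolmogorov complexity `o(n)`,
in particular if they are Turing equivalent with use `n + o(n)` for `n` in `S`, or if each is
decoded from the other by the decoders with advice of rate zero along `S`, or if they differ on a
set of positions with density zero along `S`. -/
theorem result :
    (∀ g g' : ℕ → ℕ∞, ¬ Linear (fun n => max (g n) (g' n)) → ∃ W D F, Codes W D F ∧
      ∀ x y, Use g x y → Use g' y x → Same W D F x y) ∧
    (∀ g g' : ℕ → ℕ∞, Linear g ∨ Linear g' → ∀ A, ClosedPair g g' A →
      LinearUseInvariant A ∧ TuringGame A) ∧
    (∀ (g g' : ℕ → ℕ∞) (C : ℕ), (∀ n : ℕ, g n ≤ ((C * n : ℕ) : ℕ∞)) →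
      (∀ n : ℕ, g' n ≤ ((C * n : ℕ) : ℕ∞)) → ∀ A, LinearUseInvariant A → ClosedPair g g' A) ∧
    (∀ (k : ℕ) (A : Set (ℕ → Bool)), DelayInvariant k A → TuringGame A ∧
      ∀ T e : ℕ → ℕ, Primrec T → Primrec e → (∀ n, T (e n) = n) →
        (∃ C, ∀ n, T n ≤ C * n + C ∧ e n ≤ C * n + C) → ∀ x, x ∘ T ∈ A ↔ x ∈ A) ∧
    (∀ (k : ℕ) (A : Set (ℕ → Bool)), SmallInvariant k A → TuringGame A) ∧
    (∀ (g g' : ℕ → ℕ∞) (A : Set (ℕ → Bool)), TuringInvariant A → ClosedPair g g' A) ∧
    (∀ A : Set (ℕ → Bool), ClosedPair (fun _ => ⊤) (fun _ => ⊤) A ↔ TuringInvariant A) ∧
    ∀ S : Set ℕ, S.Infinite → ∀ (ι : Type) (dd : ι → List Bool → List Bool → List Bool),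
      Countable ι → ∃ W D F, Codes W D F ∧
        (∀ x y, InfoLE S x y → InfoLE S y x → Same W D F x y) ∧
        (∀ x y, SubUse S x y → SubUse S y x → Same W D F x y) ∧
        (∀ x y, Low S dd x y → Low S dd y x → Same W D F x y) ∧
        ∀ x y, SmallChange S x y → Same W D F x y := by
  refine ⟨fun g g' h => gives_AD_pair h, fun g g' h A hA => ⟨linear_of_pair h hA,
    main (circle_of_pair h hA)⟩, fun g g' C h h' A hA => pair_of_linear h h' hA,
    fun k A hA => ⟨main (circle_of_delay hA), ?_⟩, fun k A hA => main (circle_of_small hA),
    fun g g' A hA => pair_of_turing g g' hA, pair_top_iff, fun S hS ι dd hc => ?_⟩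
  · rintro T e hT he hTe ⟨C, hC⟩ x
    exact lin_of_delay hA hT he hTe (fun n => (hC n).1) (fun n => (hC n).2) x
  · have := hc
    obtain ⟨W, D, F, h1, h2, h3⟩ := main3 hS (Sum.elim cdec dd)
    have h4 : ∀ x y, InfoLE S x y → InfoLE S y x → Same W D F x y := fun x y hx hy =>
      h2 x y (low_mono (g := Sum.inl) (fun _ => rfl) (low_of_info hx))
        (low_mono (g := Sum.inl) (fun _ => rfl) (low_of_info hy))
    exact ⟨W, D, F, h1, h4, fun x y hx hy => h4 x y (info_of_use hx) (info_of_use hy),
      fun x y hx hy => h2 x y (low_mono (g := Sum.inr) (fun _ => rfl) hx)
        (low_mono (g := Sum.inr) (fun _ => rfl) hy), h3⟩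

end Pool.Agent.Results.MP_917879_lc.UseDichotomy
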